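import Mathlib
import Pool.Agent.H93.KC.Main

open Bundle Manifold
open scoped ContDiff

noncomputable section

namespace Pool.Agent.Results.MP_64e65e_gt.NoHolomorphicFunctions

section Kaehler

variable {M : Type} [TopologicalSpace M] [ChartedSpace (ℂ × ℂ) M]

/-- Multiplication by `i` on the tangent space of a complex manifold. The tangent space at `x` of
the underlying real manifold and that of the complex manifold are the same copy of `ℂ × ℂ`. -/
def Jt (x : M) (v : TangentSpace 𝓘(ℝ, ℂ × ℂ) x) : TangentSpace 𝓘(ℝ, ℂ × ℂ) x :=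
  (Complex.I • (show TangentSpace 𝓘(ℂ, ℂ × ℂ) x from v) : TangentSpace 𝓘(ℂ, ℂ × ℂ) x)

variable [RiemannianBundle (fun x : M => TangentSpace 𝓘(ℝ, ℂ × ℂ) x)]

/-- The fundamental form `ω(v, w) = ⟨i v, w⟩` of a Riemannian metric, read in a chart `e`. -/
def fundForm (e : OpenPartialHomeomorph M (ℂ × ℂ)) (y v w : ℂ × ℂ) : ℝ :=
  inner ℝ (Jt (e.symm y) (mfderiv 𝓘(ℝ, ℂ × ℂ) 𝓘(ℝ, ℂ × ℂ) e.symm y v))
    (mfderiv 𝓘(ℝ, ℂ × ℂ) 𝓘(ℝ, ℂ × ℂ) e.symm y w)

variable (M) in
/-- A Riemannian metric on a complex manifold is Kaehler: it is invariant under multiplication by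
`i`, and its fundamental two-form `ω(v, w) = ⟨i v, w⟩`, read in any chart of the atlas, is
closed (the cyclic sum of the derivatives is `dω(a, b, c)`). -/
structure IsKaehler : Prop where
  hermitian : ∀ (x : M) (v w : TangentSpace 𝓘(ℝ, ℂ × ℂ) x),
    inner ℝ (Jt x v) (Jt x w) = inner ℝ v w
  closed : ∀ e ∈ atlas (ℂ × ℂ) M, ∀ y ∈ e.target, ∀ a b c : ℂ × ℂ,
    fderiv ℝ (fun y' => fundForm e y' b c) y a + fderiv ℝ (fun y' => fundForm e y' c a) y b
      + fderiv ℝ (fun y' => fundForm e y' a b) y c = 0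

end Kaehler

/-- There is a complete Kaehler manifold of complex dimension two, diffeomorphic to `ℂ²`, on which
every holomorphic function is constant. -/
theorem result :
    ∃ (M : Type) (_ : EMetricSpace M) (_ : ChartedSpace (ℂ × ℂ) M)
      (_ : RiemannianBundle (fun x : M => TangentSpace 𝓘(ℝ, ℂ × ℂ) x))
      (_ : IsManifold 𝓘(ℝ, ℂ × ℂ) ∞ M),
      -- `M` is a complex manifold of dimension two
      IsManifold 𝓘(ℂ, ℂ × ℂ) ω M ∧
      -- with a smooth Riemannian metric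
      IsContMDiffRiemannianBundle 𝓘(ℝ, ℂ × ℂ) ∞ (ℂ × ℂ)
        (fun x : M => TangentSpace 𝓘(ℝ, ℂ × ℂ) x) ∧
      -- the distance of `M` is the Riemannian distance
      IsRiemannianManifold 𝓘(ℝ, ℂ × ℂ) M ∧
      -- the metric is Kaehler
      IsKaehler M ∧
      -- and complete
      CompleteSpace M ∧
      -- `M` is diffeomorphic to `ℂ²`
      Nonempty (Diffeomorph 𝓘(ℝ, ℂ × ℂ) 𝓘(ℝ, ℂ × ℂ) M (ℂ × ℂ) ∞) ∧
      -- every holomorphic function on `M` is constant
      ∀ f : M → ℂ, MDifferentiable 𝓘(ℂ, ℂ × ℂ) 𝓘(ℂ, ℂ) f → ∀ x y : M, f x = f y := by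
  obtain ⟨M, i1, i2, i3, i4, h1, h2, h3, h4, h5, h6, h7⟩ := Pool.Agent.H93.KC.answer
  exact ⟨M, i1, i2, i3, i4, h1, h2, h3, ⟨h4.hermitian, h4.closed⟩, h5, h6, h7⟩

end Pool.Agent.Results.MP_64e65e_gt.NoHolomorphicFunctions
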